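import Mathlib
import Pool.Agent.H46.Sp.TieDef
import Pool.Agent.H93.Sp.Str
import Pool.Agent.H30.Sp.Geo

set_option autoImplicit false
set_option linter.unusedSectionVars false
set_option linter.unusedVariables false
open Finset

/-! # The frozen environments of the row of a window

`WEnv` : an environment of a window (tied or not), row `j - 1`. `XFw` : all labels frozen in the state `t`
except the row and the labels of `P-`, `P+` outside of `B`. `WEnv.wrow` : `XFw` has the row interface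
`WRow`. `WEnv.incW` : the weighted increments as a sum over coupons. -/

namespace Pool.Agent.H30.Sp

open Pool.Agent.H75.Perc Pool.Agent.H75.TwoArm Pool.Agent.Q1 Pool.Agent.H81.G1 Pool.Agent.H30.Mid
open Pool.Agent.H69.M6b (lbt lbt_inj lbt_odd lbt_diff lbt_sub Lay3 RowI zr)
open Pool.Agent.Q1.M6b.Gl
open Pool.Agent.Q1.M6b.Gd (Iso Nr RowGeo sm)
open Pool.Agent.H74.R45 Pool.Agent.H13.R45 Pool.Agent.H33.Q1 Pool.Agent.H34.Q1
open Pool.Agent.H46.Sp (Win Out)
open Pool.Agent.H46.Sp.Win (m_min M_max m_lt_M a_min b_max m_le_a b_le_M m_le_a' b_le_M' wal)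

variable {D : Win} {j x y : ℤ} {N : ℕ} {X : Env} {W B t : Finset (ℤ × ℤ)}

/-- the labels which stay random -/
noncomputable def EFw (D : Win) (j : ℤ) (N : ℕ) (B : Finset (ℤ × ℤ)) : Finset (ℤ × ℤ) :=
  BLw D j B ∪ BUw D j B ∪ RS N (D.m (j - 1)) (j - 1)

/-- **The frozen environment of a row of a window.** -/
noncomputable def XFw (X : Env) (D : Win) (j : ℤ) (N : ℕ) (B t : Finset (ℤ × ℤ)) : Env :=
  X.freeze (EFw D j N B) t

/-- its open labels -/
noncomputable def WFw (X : Env) (W : Finset (ℤ × ℤ)) (D : Win) (j : ℤ) (N : ℕ)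
    (B t : Finset (ℤ × ℤ)) : Finset (ℤ × ℤ) := fW X W (EFw D j N B) t

/-- **An environment of the window** with the line in the row `j - 1` (tied or not). -/
structure WEnv (D : Win) (j : ℤ) (X : Env) (W : Finset (ℤ × ℤ)) : Prop where
  po : PO X W
  low : ∀ x y, -1 ≤ y → y < j - 1 → D.a (y + 1) ≤ x → x < D.b (y + 1) → lt (x, y) ∈ X.E
  upp : ∀ x y, j ≤ y → y < D.h → D.a y ≤ x → x < D.b y → lt (x, y) ∈ X.E
  row : ∀ x, D.m (j - 1) ≤ x → x < D.M (j - 1) → lt (x, j - 1) ∈ X.E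
  extE : ∀ x y, D.InZ x y → Ou D x y → lt (x, y) ∉ X.E
  ext : ∀ x y, D.InZ x y → Ou D x y → (lt (x, y) ∈ W ↔ D.InX x y)
  root : ∀ x y, plab X.c0 = lt (x, y) → ¬ D.InZ x y

namespace WEnv

variable (R : WEnv D j X W) (h0 : 0 < j) (h1 : j < D.h)
  (hN : (N : ℤ) = D.M (j - 1) - D.m (j - 1))

include R h0 h1 hN

lemma sub : EFw D j N B ⊆ X.E := by
  intro e he
  unfold EFw at he
  rw [mem_union, mem_union] at he
  rcases he with (he | he) | he
  · obtain ⟨x, y, rfl⟩ := exists_lbt (odd_BLw he)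
    have h2 := (mem_BLw.1 he).1
    rw [lbt_lt]
    exact R.low x y h2.1 h2.2.1 h2.2.2.2.1 h2.2.2.2.2
  · obtain ⟨x, y, rfl⟩ := exists_lbt (odd_BUw he)
    have h2 := (mem_BUw.1 he).1
    rw [lbt_lt]
    exact R.upp x y h2.1 h2.2.2.1 h2.2.2.2.1 h2.2.2.2.2
  · obtain ⟨c, rfl⟩ := mem_RS.1 he
    have hc := c.2
    exact R.row _ (by omega) (by omega)

lemma XFw_E : (XFw X D j N B t).E = EFw D j N B := by
  unfold XFw
  rw [Env.freeze_E]
  exact inter_eq_right.2 (R.sub h0 h1 hN)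

/-- **The row interface of the frozen environment.** -/
theorem wrow : WRow D j N (XFw X D j N B t) (WFw X W D j N B t) B where
  j0 := h0
  j1 := h1
  hN := hN
  po := R.po.freeze _ _
  XE := R.XFw_E h0 h1 hN
  ext x y hz ho := by
    rw [← R.ext x y hz ho]
    unfold WFw fW
    rw [mem_union, mem_inter, mem_sdiff]
    have := R.extE x y hz ho
    tauto
  root := R.root

end WEnv

/-! ### The weights of the row -/

section weights

variable {a : ℂ} {q : ℤ × ℤ → ℂ}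

/-- weights of an environment with the row `j - 1` of a window: `1/2` on the labels of `P-`, `P+`, weight
`a` of the state {W-N, S-E} in the row -/
structure QRow (D : Win) (j : ℤ) (a : ℂ) (q : ℤ × ℤ → ℂ) : Prop where
  low : ∀ x y, -1 ≤ y → y < j - 1 → y + 1 < D.h → D.a (y + 1) ≤ x → x < D.b (y + 1) →
    q (lt (x, y)) = 1 / 2
  upp : ∀ x y, j ≤ y → 0 ≤ y → y < D.h → D.a y ≤ x → x < D.b y → q (lt (x, y)) = 1 / 2
  row : ∀ x, D.m (j - 1) ≤ x → x < D.M (j - 1) → q (lt (x, j - 1)) = wal x (j - 1) a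

lemma QRow.half (h : QRow D j a q) {e : ℤ × ℤ} (he : e ∈ BLw D j B ∪ BUw D j B) : q e = 1 / 2 := by
  rcases mem_union.1 he with he | he
  · obtain ⟨x, y, rfl⟩ := exists_lbt (odd_BLw he)
    have h2 := (mem_BLw.1 he).1
    rw [lbt_lt]
    exact h.low x y h2.1 h2.2.1 h2.2.2.1 h2.2.2.2.1 h2.2.2.2.2
  · obtain ⟨x, y, rfl⟩ := exists_lbt (odd_BUw he)
    have h2 := (mem_BUw.1 he).1
    rw [lbt_lt]
    exact h.upp x y h2.1 h2.2.1 h2.2.2.1 h2.2.2.2.1 h2.2.2.2.2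

lemma QRow.qrl (h : QRow D j a q) (hN : (N : ℤ) = D.M (j - 1) - D.m (j - 1)) (c : Fin N) :
    q (Pool.Agent.H30.Mid.rl (D.m (j - 1)) (j - 1) c) =
      if (D.m (j - 1) + ((c : ℕ) : ℤ) + (j - 1)) % 2 = 0 then a else 1 - a := by
  have hc := c.2
  have e : Pool.Agent.H30.Mid.rl (D.m (j - 1)) (j - 1) c = lt (D.m (j - 1) + (c : ℕ), j - 1) := rfl
  rw [e, h.row _ (by omega) (by omega)]
  rfl

lemma QRow.wA (h : QRow D j a q) (hN : (N : ℤ) = D.M (j - 1) - D.m (j - 1)) (c : Fin N) :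
    wA (Pool.Agent.H30.Mid.rl (D.m (j - 1)) (j - 1)) (rp (D.m (j - 1)) (j - 1)) q c = a := by
  unfold Pool.Agent.H81.G1.wA
  rw [h.qrl hN]
  cases hp : rp (D.m (j - 1)) (j - 1) c
  · have := (rp_false c).1 hp
    rw [if_neg (by simp), if_pos (by omega)]
  · have := (rp_true c).1 hp
    rw [if_pos rfl, if_neg (by omega)]
    ring

lemma QRow.wB (h : QRow D j a q) (hN : (N : ℤ) = D.M (j - 1) - D.m (j - 1)) (c : Fin N) :
    wB (Pool.Agent.H30.Mid.rl (D.m (j - 1)) (j - 1)) (rp (D.m (j - 1)) (j - 1)) q c = 1 - a := by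
  unfold Pool.Agent.H81.G1.wB
  rw [h.qrl hN]
  cases hp : rp (D.m (j - 1)) (j - 1) c
  · have := (rp_false c).1 hp
    rw [if_neg (by simp), if_pos (by omega)]
  · have := (rp_true c).1 hp
    rw [if_pos rfl, if_neg (by omega)]

lemma disj_LUw : Disjoint (BLw D j B) (BUw D j B) := by
  rw [disjoint_left]
  intro e h1 h2
  obtain ⟨x, y, rfl⟩ := exists_lbt (odd_BLw h1)
  have h3 := (mem_BLw.1 h1).1
  have h4 := (mem_BUw.1 h2).1
  omega

lemma disj_LUw' : Disjoint (BLw D j B) ((BUw D j B).map (tr (1, -1))) := by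
  rw [disjoint_left]
  intro e h1 h2
  obtain ⟨x, y, rfl⟩ := exists_lbt (odd_BLw h1)
  rw [mem_tr, lbt_sub] at h2
  have h3 := (mem_BLw.1 h1).1
  have h4 := (mem_BUw.1 h2).1
  omega

/-- **The weighted increments of a row: sum over the coupons.** -/
theorem WRow.incW (R : WRow D j N X W B) (h : QRow D j a q) {a0 b0 κ : ℂ} (ha : a = a0 + κ)
    (hab : a0 + b0 = 1) (y : Fin N × Dir) (k : ℤ) :
    X.incW q (rcr (D.m (j - 1)) (j - 1) y) = ∑ m ∈ range (N + 1), κ ^ m *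
      ∑ s ∈ powersetCard m (Finset.Ico (-k) ((N : ℤ) - k)), Ec (fun _ => (1 / 2 : ℂ))
        (gE (BLw D j B) (BUw D j B) (1, -1))
        (Amp X (D.m (j - 1)) (j - 1) y a0 b0 (BLw D j B) (BUw D j B) k s) := by
  refine incW_coupons R.lay.row R.lay.eq disj_LUw disj_LUw' (fun e he => h.half he) (fun c => ?_)
    (fun c => ?_) y k
  · rw [h.wA R.hN, ha]
  · rw [h.wB R.hN, ha]
    linear_combination -hab

end weights

/-! ### The environments `XJ` and their tied forms -/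

section inst

variable {O : Out D}

lemma in_low (h0 : -1 ≤ y) (h1 : y + 1 < D.h) (h2 : D.a (y + 1) ≤ x) (h3 : x < D.b (y + 1)) :
    D.m y ≤ x ∧ x < D.M y :=
  ⟨(m_le_a' h1).trans h2, h3.trans_le (b_le_M' h1)⟩

lemma in_upp (h0 : 0 ≤ y) (h2 : D.a y ≤ x) (h3 : x < D.b y) : D.m y ≤ x ∧ x < D.M y :=
  ⟨(m_le_a h0).trans h2, h3.trans_le (b_le_M h0)⟩

lemma ou_not_E (ho : Ou D x y) : ¬ D.InE j x y := by
  refine Win.not_InE ?_
  rcases ho with h | h | ⟨-, -, h⟩ <;> omega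

lemma ou_not_C (ho : Ou D x y) : ¬ D.InC j x y := by
  refine Win.not_InC ?_
  rcases ho with h | h | ⟨-, -, h⟩ <;> omega

/-- **The environment number `j`.** -/
theorem wenv_XJ (O : Out D) (h0 : 0 < j) (h1 : j < D.h) :
    WEnv D j (Win.XJ O j h0.le) (D.WJ j O.Wo) where
  po := PO.of_plane
  low x y g1 g2 g3 g4 := by
    have := in_low (D := D) g1 (by omega) g3 g4
    exact Win.mem_EJ.2 (Or.inl ⟨g1, by omega, this.1, this.2⟩)
  upp x y g1 g2 g3 g4 := by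
    have := in_upp (D := D) (by omega) g3 g4
    exact Win.mem_EJ.2 (Or.inl ⟨by omega, g2, this.1, this.2⟩)
  row x g1 g2 := Win.mem_EJ.2 (Or.inl ⟨by omega, by omega, g1, g2⟩)
  extE x y hz ho := fun h => ou_not_E ho (Win.mem_EJ.1 h)
  ext x y hz ho := by
    rw [Win.mem_WJ O hz]
    have := ou_not_C (j := j) ho
    tauto
  root x y h hz := by
    refine O.hroot ?_
    rw [← Win.mem_GA (D := D)] at hz
    rwa [← h] at hz

/-- **The weights of the environment number `j`.** -/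
theorem qrow_J (a b c : ℂ) (h0 : 0 < j) (h1 : j < D.h) : QRow D j a (D.qJ j a b c) where
  low x y g1 g2 g3 g4 g5 := Win.qJ_dn (by omega) g3 g4 g5
  upp x y g1 g2 g3 g4 g5 := Win.qJ_up g1 g2 g4 g5
  row x g1 g2 := Win.qJ_row g1 g2

/-- the tiles of `P-`, `P+` and of the row `j - 1` -/
def Reg (D : Win) (j x y : ℤ) : Prop :=
  (-1 ≤ y ∧ y < j - 1 ∧ D.a (y + 1) ≤ x ∧ x < D.b (y + 1)) ∨
  (j ≤ y ∧ y < D.h ∧ D.a y ≤ x ∧ x < D.b y) ∨ (y = j - 1 ∧ D.m (j - 1) ≤ x ∧ x < D.M (j - 1))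

lemma Reg.inU (h0 : 0 < j) (h1 : j < D.h) (h : Reg D j x y) :
    -1 ≤ y ∧ y < D.h ∧ D.m y ≤ x ∧ x < D.M y := by
  rcases h with ⟨g1, g2, g3, g4⟩ | ⟨g1, g2, g3, g4⟩ | ⟨rfl, g1, g2⟩
  · have := in_low (D := D) g1 (by omega) g3 g4
    exact ⟨g1, by omega, this.1, this.2⟩
  · have := in_upp (D := D) (by omega) g3 g4
    exact ⟨by omega, g2, this.1, this.2⟩
  · exact ⟨by omega, by omega, g1, g2⟩

/-- environments with less random labels, which differ only outside of the row, `P-` and `P+` -/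
theorem WEnv.congr {X' : Env} {W' : Finset (ℤ × ℤ)} (R : WEnv D j X W) (h0 : 0 < j) (h1 : j < D.h)
    (po : PO X' W') (hE : ∀ x y, Reg D j x y → lt (x, y) ∈ X'.E) (hE' : X'.E ⊆ X.E)
    (hW : ∀ x y, D.InZ x y → Ou D x y → (lt (x, y) ∈ W' ↔ lt (x, y) ∈ W))
    (hc : plab X'.c0 = plab X.c0) : WEnv D j X' W' where
  po := po
  low x y g1 g2 g3 g4 := hE x y (Or.inl ⟨g1, g2, g3, g4⟩)
  upp x y g1 g2 g3 g4 := hE x y (Or.inr (Or.inl ⟨g1, g2, g3, g4⟩))
  row x g1 g2 := hE x _ (Or.inr (Or.inr ⟨rfl, g1, g2⟩))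
  extE x y hz ho := fun h => R.extE x y hz ho (hE' h)
  ext x y hz ho := (hW x y hz ho).trans (R.ext x y hz ho)
  root x y h := R.root x y (hc ▸ h)

/-- weights which are the same in the row, `P-` and `P+` -/
theorem QRow.congr {a : ℂ} {q q' : ℤ × ℤ → ℂ} (h : QRow D j a q) (h0 : 0 < j) (h1 : j < D.h)
    (hq : ∀ x y, Reg D j x y → q' (lt (x, y)) = q (lt (x, y))) : QRow D j a q' where
  low x y g1 g2 g3 g4 g5 := (hq x y (Or.inl ⟨g1, g2, g4, g5⟩)).trans (h.low x y g1 g2 g3 g4 g5)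
  upp x y g1 g2 g3 g4 g5 := (hq x y (Or.inr (Or.inl ⟨g1, g3, g4, g5⟩))).trans
    (h.upp x y g1 g2 g3 g4 g5)
  row x g1 g2 := (hq x _ (Or.inr (Or.inr ⟨rfl, g1, g2⟩))).trans (h.row x g1 g2)

end inst

end Pool.Agent.H30.Sp
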