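import Mathlib
import Pool.Agent.H69.Sp.RowW
import Pool.Agent.H42.Sp.TieMem

set_option autoImplicit false
set_option linter.unusedSectionVars false
set_option linter.unusedVariables false
open Finset

/-! # The row of a window in the tied forms

`NRow j k` : the cap `k` is not in the row `j - 1`. `cap_reg` : the tiles of such a cap are not in the
row, in `P-` or in `P+`. `wenv_XTp`, `qrow_Tp` : the tied form `XTp` for a set `P` of such caps has the
interface `WEnv`, its weights have the interface `QRow`. -/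

namespace Pool.Agent.H30.Sp

open Pool.Agent.H75.Perc Pool.Agent.H75.TwoArm Pool.Agent.Q1 Pool.Agent.H81.G1 Pool.Agent.H30.Mid
open Pool.Agent.H74.R45 Pool.Agent.H13.R45 Pool.Agent.H33.Q1 Pool.Agent.H34.Q1
open Pool.Agent.H46.Sp (Win Out)
open Pool.Agent.H46.Sp.Win (m_lo m_hi M_lo M_hi m_lt_M)
open Pool.Agent.H42.Sp (Ix Sd CP kt rt ETp OTp WTp qTp XTp)

variable {D : Win} {j x y : ℤ}

/-- the cap is not in the row `j - 1` -/
def NRow (j : ℤ) (k : Ix) : Prop := (k.1 = .F → k.2.2 ≠ j - 1) ∧ (k.1 = .C → k.2.2 ≠ j)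

/-- the tiles of a cap which is not in the row `j - 1` -/
lemma cap_reg (h0 : 0 < j) (h1 : j < D.h) {k : Ix} (hk : CP D j k) (hr : NRow j k)
    {t : ℤ × ℤ} (ht : t = kt k ∨ t = rt k) : ¬ Reg D j t.1 t.2 := by
  intro hR
  have hU := hR.inU h0 h1
  have hreg := (Pool.Agent.H42.Sp.reg h0.le h1.le hk ht).1
  obtain ⟨s, x, y⟩ := k
  cases s
  · unfold Pool.Agent.H42.Sp.Rg at hreg
    simp only at hreg
    omega
  · unfold Pool.Agent.H42.Sp.Rg at hreg
    simp only at hreg
    omega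
  · have hy : y ≠ j - 1 := hr.1 rfl
    have h3 : t = (x, y) ∨ t = (x - 1, y) := by
      rcases ht with h | h <;> rw [h]
      · exact Pool.Agent.H42.Sp.kt_F
      · exact Pool.Agent.H42.Sp.rt_F
    rcases hk with ⟨a1, a2, a3, a4, -⟩ | ⟨a1, a2, a3, a4, -⟩ | ⟨a1, a2, -⟩
    · have e1 : D.m (y - 1) = D.a y := by
        rw [m_lo (by omega)]; congr 1; ring
      unfold Reg at hR
      rcases h3 with h | h <;> rw [h] at hR <;> simp only at hR <;> omega
    · have e1 : D.M (y - 1) = D.b y := by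
        rw [M_lo (by omega)]; congr 1; ring
      unfold Reg at hR
      rcases h3 with h | h <;> rw [h] at hR <;> simp only at hR <;> omega
    · omega
  · have hy : y ≠ j := hr.2 rfl
    have h3 : t = (x, y - 1) ∨ t = (x - 1, y - 1) := by
      rcases ht with h | h <;> rw [h]
      · exact Pool.Agent.H42.Sp.kt_C
      · exact Pool.Agent.H42.Sp.rt_C
    have e0 : y - 1 + 1 = y := by ring
    rcases hk with ⟨a1, a2, a3, a4, -⟩ | ⟨a1, a2, a3, a4, -⟩ | ⟨a1, a2, -⟩
    · have e1 : D.m y = D.a y := m_hi (by omega)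
      unfold Reg at hR
      rcases h3 with h | h <;> rw [h] at hR <;> simp only [e0] at hR <;> omega
    · have e1 : D.M y = D.b y := M_hi (by omega)
      unfold Reg at hR
      rcases h3 with h | h <;> rw [h] at hR <;> simp only [e0] at hR <;> omega
    · omega

variable {P : Finset Ix}

/-- **The tied form of the environment number `j`.** -/
theorem wenv_XTp (O : Out D) (h0 : 0 < j) (h1 : j < D.h) (hP : ∀ k ∈ P, CP D j k)
    (hr : ∀ k ∈ P, NRow j k) :
    WEnv D j (XTp O j h0.le h1.le P hP) (WTp D j P O.Wo) := by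
  refine (wenv_XJ O h0 h1).congr h0 h1 PO.of_plane (fun x y hR => ?_) ?_ (fun x y hz ho => ?_) rfl
  · rw [Pool.Agent.H42.Sp.XTp_E]
    unfold ETp
    rw [mem_sdiff]
    refine ⟨Win.mem_EJ.2 (Or.inl (hR.inU h0 h1)), fun h => ?_⟩
    obtain ⟨k, hk, h2⟩ := mem_image.1 h
    have h3 := lt_inj h2
    have h4 := cap_reg h0 h1 (hP k hk) (hr k hk) (Or.inr rfl)
    rw [h3] at h4
    exact h4 hR
  · rw [Pool.Agent.H42.Sp.XTp_E, Win.XJ_E]
    exact Pool.Agent.H42.Sp.ETp_sub
  · unfold WTp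
    rw [mem_union]
    refine ⟨fun h => h.resolve_right fun h2 => ?_, Or.inl⟩
    exact ou_not_E ho (Win.mem_EJ.1 (Pool.Agent.H42.Sp.OTp_sub O h0.le h1.le hP h2))

/-- **The weights of the tied form.** -/
theorem qrow_Tp (a b c : ℂ) (h0 : 0 < j) (h1 : j < D.h) (hP : ∀ k ∈ P, CP D j k)
    (hr : ∀ k ∈ P, NRow j k) : QRow D j a (qTp D j P a b c) := by
  refine (qrow_J a b c h0 h1).congr h0 h1 fun x y hR => ?_
  refine Pool.Agent.H42.Sp.qTp_other fun k hk h => ?_
  have h4 := cap_reg h0 h1 (hP k hk) (hr k hk) (Or.inl rfl)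
  rw [lt_inj h] at h4
  exact h4 hR

end Pool.Agent.H30.Sp
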