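import Mathlib
import Pool.Agent.H30.Sp.Geo
import Pool.Agent.H53.Sp.BhW

set_option autoImplicit false
set_option linter.unusedSectionVars false
set_option linter.unusedVariables false
open Finset

/-! # The boxes of the ties of a window are away from the row

`SepW D j r N B` : in the rows at distance `≤ r` the labels `B` are near the walls. `rowI_winB` : the interface
of chapter B under this hypothesis. `sepW_of` : the half boxes of the ties satisfy it. -/

namespace Pool.Agent.H30.Sp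

open Pool.Agent.H75.Perc Pool.Agent.H75.TwoArm Pool.Agent.Q1 Pool.Agent.H81.G1 Pool.Agent.H30.Mid
open Pool.Agent.H69.M6b (lbt lbt_inj lbt_odd lbt_diff Lay3 RowI zr)
open Pool.Agent.Q1.M6b.Gl
open Pool.Agent.Q1.M6b.Gd (Iso Nr RowGeo sm)
open Pool.Agent.H74.R45 Pool.Agent.H13.R45 Pool.Agent.H33.Q1 Pool.Agent.H34.Q1
open Pool.Agent.H46.Sp (Win TSys Kd)
open Pool.Agent.H53.Sp (GOk)

variable {D : Win} {j x y r r' : ℤ} {N : ℕ} {X : Env} {W B ω : Finset (ℤ × ℤ)}

lemma Flat.mono (H : Flat D j r) (h2 : 2 ≤ r') (h : r' ≤ r) : Flat D j r' where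
  r2 := h2
  lo := h.trans H.lo
  hi := by have := H.hi; omega
  ab y h3 h4 := H.ab y (by omega) (by omega)

/-- near the row the labels `B` are near the walls -/
def SepW (D : Win) (j r : ℤ) (N : ℕ) (B : Finset (ℤ × ℤ)) : Prop :=
  ∀ x y : ℤ, D.m (j - 1) ≤ x → x < D.m (j - 1) + N → j - 1 - r ≤ y → y < j + r → lbt x y ∈ B →
    (2 * (x - D.m (j - 1)) ≤ |y - (j - 1)| + 2 ∧ 2 * (x - D.m (j - 1)) ≤ |y - j| + 2) ∨
    (2 * (D.m (j - 1) + N - x) ≤ |y - (j - 1)| + 2 ∧ 2 * (D.m (j - 1) + N - x) ≤ |y - j| + 2)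

open Classical in
/-- the labels of `B` near the row -/
noncomputable def Bnd (D : Win) (j r : ℤ) (N : ℕ) (B : Finset (ℤ × ℤ)) : Finset (ℤ × ℤ) :=
  B.filter fun e => ∃ x y, e = lbt x y ∧ D.m (j - 1) ≤ x ∧ x < D.m (j - 1) + N ∧ j - 1 - r ≤ y ∧
    y < j + r

lemma sep_Bnd (h : SepW D j r N B) : Sep (Bnd D j r N B) N (D.m (j - 1)) (j - 1) ∧
    Sep (Bnd D j r N B) N (D.m (j - 1)) j := by
  classical
  constructor
  · intro x y hm
    unfold Bnd at hm
    obtain ⟨hB, x', y', e, h1, h2, h3, h4⟩ := mem_filter.1 hm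
    obtain ⟨rfl, rfl⟩ := lbt_inj e
    rcases h x y h1 h2 h3 h4 hB with h5 | h5
    · exact Or.inl h5.1
    · exact Or.inr h5.1
  · intro x y hm
    unfold Bnd at hm
    obtain ⟨hB, x', y', e, h1, h2, h3, h4⟩ := mem_filter.1 hm
    obtain ⟨rfl, rfl⟩ := lbt_inj e
    rcases h x y h1 h2 h3 h4 hB with h5 | h5
    · exact Or.inl h5.2
    · exact Or.inr h5.2

lemma not_Bnd (h1 : D.m (j - 1) ≤ x) (h2 : x < D.m (j - 1) + N) (h3 : j - 1 - r ≤ y)
    (h4 : y < j + r) (h : lbt x y ∉ Bnd D j r N B) : lbt x y ∉ B := fun hB => by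
  classical
  refine h ?_
  unfold Bnd
  exact mem_filter.2 ⟨hB, x, y, rfl, h1, h2, h3, h4⟩

/-- **The interface of chapter B for the row `j - 1` of a window.** -/
theorem rowI_winB (R : WRow D j N X W B) {F : Finset ℤ} (hF : Few D F) {r : ℤ} (H : Flat D j r)
    (hB : SepW D j r N B) {k : ℕ} (hk1 : 1 ≤ k)
    (hkN : k + 1 ≤ N) {K0 : ℤ} (hK0 : 6 ≤ K0) (hNK : (N : ℤ) < K0 * (r + 1)) {R0 : ℕ}
    (hR : (R0 : ℤ) ≤ r) {g : ℕ} (hg : 16 * F.card + 36 ≤ g) :
    RowI X N (D.m (j - 1)) (j - 1) k (BLw D j B) (BUw D j B) (WGw D j W B) K0 g 9 R0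
      (Swx N (D.m (j - 1)) (j - 1)) := by
  have hj0 := R.j0
  have hj1 := R.j1
  have hN := R.hN
  have r2 := H.r2
  have hlo := H.lo
  have hhi := H.hi
  have e1 := H.m_eq (y := j - 1) (by omega) (by omega)
  have e2 := H.M_eq (y := j - 1) (by omega) (by omega)
  obtain ⟨s1, s2⟩ := sep_Bnd hB
  have hmem : ∀ x, D.m (j - 1) ≤ x → x < D.m (j - 1) + N → D.a j ≤ x ∧ x < D.b j := by
    intro x h1 h2; omega
  have hL : ∀ x y : ℤ, D.m (j - 1) ≤ x → x < D.m (j - 1) + N → j - 1 - r ≤ y → y < j - 1 →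
      lbt x y ∉ Bnd D j r N B → lbt x y ∈ BLw D j B := by
    intro x y h1 h2 h3 h4 h5
    have h6 := H.ab (y + 1) (by omega) (by omega)
    have h7 := hmem x h1 h2
    exact mem_BLw.2 ⟨⟨by omega, h4, by omega, by omega, by omega⟩, not_Bnd h1 h2 h3 (by omega) h5⟩
  have hU : ∀ x y : ℤ, D.m (j - 1) ≤ x → x < D.m (j - 1) + N → j - 1 < y → y < j + r →
      lbt x y ∉ Bnd D j r N B → lbt x y ∈ BUw D j B := by
    intro x y h1 h2 h3 h4 h5
    have h6 := H.ab y (by omega) (by omega)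
    have h7 := hmem x h1 h2
    exact mem_BUw.2 ⟨⟨by omega, by omega, by omega, by omega, by omega⟩,
      not_Bnd h1 h2 (by omega) h4 h5⟩
  refine ⟨R.lay, ?_, disj_WGb R.po R.lay, ?_, ?_, card_Swx _ _⟩
  · exact rowGeo_glued (EL := BLw D j B) (EU := BUw D j B) (BL := Bnd D j r N B)
      (BU := Bnd D j r N B) (N := N) (k := k)
      (x0 := D.m (j - 1)) (y0 := j - 1) (ya := j - 1 - r) (yb := j + r) (K0 := K0) hk1 hkN hK0
      (by rw [show j - 1 - (j - 1 - r) + 1 = r + 1 by ring]; exact hNK)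
      (by rw [show j + r - (j - 1) = r + 1 by ring]; exact hNK) hL hU s1
      (by rw [sub_add_cancel]; exact s2)
  · intro ζ hζ
    obtain ⟨F', f1, f2, f3⟩ := frame_win R hF
      ((H.m_eq (y := j) (by omega) le_rfl).trans e1.symm)
      ((H.m_eq (y := j - 2) le_rfl (by omega)).trans e1.symm)
      ((H.M_eq (y := j) (by omega) le_rfl).trans e2.symm)
      ((H.M_eq (y := j - 2) le_rfl (by omega)).trans e2.symm) ζ
    refine ⟨_, F', outL_LG R.po, ?_, glab_WGb R.po R.lay hζ F' f3, by omega⟩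
    intro hI
    obtain ⟨x, y, e⟩ := exists_lbt (odd_plab' X.c0)
    rw [e] at hI
    exact R.root x y e (InZ_iff.2 (f3 x y hI))
  · intro Sp hSp c M hM1 hM e ho h1 h2
    obtain ⟨hMR, hMs⟩ := hM
    refine near_row hL hU s1 (by rw [sub_add_cancel]; exact s2) hM1 (by omega) (by omega) ?_ ho h1 h2
    intro d hd
    have h3 := hMs _ (hSp (mem_Swx (x0 := D.m (j - 1)) (y0 := j - 1) hd))
    have e3 : (sc (D.m (j - 1)) (j - 1) c).1 = D.m (j - 1) - (j - 1) + 1 + ((c : ℕ) : ℤ) := by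
      unfold sc sm; simp
    rw [e3, show D.m (j - 1) - (j - 1) + 1 + ((c : ℕ) : ℤ) - (D.m (j - 1) - (j - 1) + 1 + d) =
      ((c : ℕ) : ℤ) - d by ring] at h3
    exact h3

/-! ### The half boxes of the ties -/

variable {κ : Type*} [Fintype κ] [DecidableEq κ] [Nonempty κ] {S : TSys κ} {L K : ℤ}
  {up : κ → Bool} {E0 W0 v : Finset (ℤ × ℤ)}

/-- **The half boxes of the ties are away from the row.** -/
theorem sepW_of (hO : S.Ok E0 W0 L) (hG : GOk D j S L up) (hK : 20 ≤ K)
    (hKL : ∀ a, (S.N a : ℤ) < K * L) (hv : v ⊆ S.Ti) (H : Flat D j r)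
    (hN : (N : ℤ) = D.M (j - 1) - D.m (j - 1)) (hr : r' + L + 1 ≤ r) :
    SepW D j r' N (v.biUnion (S.Bt K v)) := by
  have r2 := H.r2
  have hlo := H.lo
  have hhi := H.hi
  have e1 := H.m_eq (y := j - 1) (by omega) (by omega)
  have e2 := H.M_eq (y := j - 1) (by omega) (by omega)
  intro x y x1 x2 y1 y2 hm
  rw [mem_biUnion] at hm
  obtain ⟨e, he, hl⟩ := hm
  obtain ⟨hx, hxe⟩ := hO.idx_mem (hv he)
  rw [← hxe] at hl
  obtain ⟨u, t, e3, hu, hRg⟩ := TSys.Bt_rg hO hK hKL hx hl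
  generalize (S.idx e).1 = a at *
  rw [lbt_lt] at e3
  have e4 : (x, y) = S.tl a u t := lt_inj e3
  have hKLa := hKL a
  have hL1 : 1 ≤ L := by
    by_contra hcon
    have : K * L ≤ 0 := mul_nonpos_of_nonneg_of_nonpos (by omega) (by omega)
    omega
  have b1 := le_abs_self (y - (j - 1))
  have b2 := le_abs_self (y - j)
  have b3 := neg_abs_le (y - (j - 1))
  have b4 := neg_abs_le (y - j)
  generalize |y - (j - 1)| = A1 at *
  generalize |y - j| = A2 at *
  have hR0 : S.Rg L a 0 t := by unfold TSys.Rg at hRg ⊢; omega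
  have hR1 : S.Rg L a (-1) t := by unfold TSys.Rg at hRg ⊢; omega
  have hRa : S.Rg L a (-1) (S.q a + 6) := by unfold TSys.Rg at hRg ⊢; omega
  have hRb : S.Rg L a (-1) (S.q a + 2 * S.N a - 8) := by unfold TSys.Rg at hRg ⊢; omega
  unfold TSys.Rg at hRg
  cases hup : up a
  · have g0 := hG.blo a 0 t hup le_rfl hR0
    have g1 := hG.nlo a (-1) t hup (by omega) le_rfl hR1
    have ga := hG.nlo a (-1) _ hup (by omega) le_rfl hRa
    have gb := hG.nlo a (-1) _ hup (by omega) le_rfl hRb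
    unfold TSys.tl at e4 g0 g1 ga gb
    cases hk : S.k a <;> rw [hk] at e4 g0 g1 ga gb <;> simp only [Kd.tau, Prod.mk.injEq] at e4 g0 g1 ga gb
    · have h6 := H.ab (t + 1) (by omega) (by omega)
      omega
    · have h6 := H.ab (t + 1) (by omega) (by omega)
      omega
    · exfalso
      by_cases hp : j - r ≤ S.p a
      · have h6 := H.ab (S.p a) (by omega) (by omega)
        have h7 := H.ab (S.p a + 1) (by omega) (by omega)
        rw [show S.p a + 0 + 1 = S.p a + 1 by ring] at g0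
        rw [show S.p a + -1 + 1 = S.p a by ring] at g1
        omega
      · omega
    · exfalso
      by_cases hp : j - r ≤ S.p a
      · have h6 := H.ab (S.p a) (by omega) (by omega)
        have h7 := H.ab (S.p a + 1) (by omega) (by omega)
        rw [show S.p a - 1 - 0 + 1 = S.p a by ring] at g0
        rw [show S.p a - 1 - -1 + 1 = S.p a + 1 by ring] at g1
        omega
      · omega
  · have g0 := hG.bup a 0 t hup le_rfl hR0
    have g1 := hG.nup a (-1) t hup (by omega) le_rfl hR1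
    have ga := hG.nup a (-1) _ hup (by omega) le_rfl hRa
    have gb := hG.nup a (-1) _ hup (by omega) le_rfl hRb
    unfold TSys.tl at e4 g0 g1 ga gb
    cases hk : S.k a <;> rw [hk] at e4 g0 g1 ga gb <;> simp only [Kd.tau, Prod.mk.injEq] at e4 g0 g1 ga gb
    · have h6 := H.ab t (by omega) (by omega)
      omega
    · have h6 := H.ab t (by omega) (by omega)
      omega
    · exfalso
      by_cases hp : S.p a < j + r
      · have h6 := H.ab (S.p a) (by omega) (by omega)
        have h7 := H.ab (S.p a - 1) (by omega) (by omega)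
        rw [show S.p a + 0 = S.p a by ring] at g0
        rw [show S.p a + -1 = S.p a - 1 by ring] at g1
        omega
      · omega
    · exfalso
      by_cases hp : S.p a < j + r
      · have h6 := H.ab (S.p a) (by omega) (by omega)
        have h7 := H.ab (S.p a - 1) (by omega) (by omega)
        rw [show S.p a - 1 - 0 = S.p a - 1 by ring] at g0
        rw [show S.p a - 1 - -1 = S.p a by ring] at g1
        omega
      · omega

end Pool.Agent.H30.Sp
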