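import Mathlib
import Pool.Agent.H69.Sp.RowW
import Pool.Agent.H69.M6b.RowSum
import Pool.Agent.H69.Sp.SepW

set_option autoImplicit false
set_option linter.unusedSectionVars false
set_option linter.unusedVariables false
open Finset

/-! # The sums over the coupons of a row of a window in the frozen environments

`fb_win` : the bound `C R ^ (2 m / 3 + 2 / 5)` for every frozen environment of a flat row of a window, from
the bound of the moment of the number of closed strands around the mark. `fb_ties` : the same for the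
environments in which the half boxes of at most `l` ties are frozen. -/

namespace Pool.Agent.H30.Sp

open Pool.Agent.H75.Perc Pool.Agent.H75.TwoArm Pool.Agent.Q1 Pool.Agent.H81.G1 Pool.Agent.H30.Mid
open Pool.Agent.H99.NC
open Pool.Agent.H69.M6b (lbt lbt_inj lbt_odd lbt_diff lbt_sub Lay3 RowI zr row_sum)
open Pool.Agent.Q1.M6b.Gl
open Pool.Agent.Q1.M6b.Gd (Iso Nr RowGeo sm)
open Pool.Agent.Q1.M6b.Nest (Lp)
open Pool.Agent.H74.R45 Pool.Agent.H13.R45 Pool.Agent.H33.Q1 Pool.Agent.H34.Q1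
open Pool.Agent.H46.Sp (Win Out TSys)
open Pool.Agent.H53.Sp (GOk FOk bh_win)

variable {D : Win} {j x y : ℤ} {N : ℕ} {X : Env} {W B t : Finset (ℤ × ℤ)}

lemma BLw_sdiff : BLw D j ∅ \ B = BLw D j B := by
  unfold BLw
  rw [sdiff_empty]

lemma BUw_sdiff : BUw D j ∅ \ B = BUw D j B := by
  unfold BUw
  rw [sdiff_empty]

/-- the end of the row at the mark -/
lemma mark_row {k : ℕ} {x0 y0 : ℤ} {y : Fin N × Dir} (hyc : rcr x0 y0 y = ve (x0 + (k : ℤ), y0)) :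
    ∃ k0 : Fin N, (y = (k0, .W) ∨ y = (k0, .E)) ∧ Pool.Agent.Q1.M6b.Strand.pos y = k := by
  obtain ⟨c, d⟩ := y
  cases d with
  | N => rw [rcr_N] at hyc; exact absurd hyc.symm (ve_ne_he _ _)
  | S => rw [rcr_S] at hyc; exact absurd hyc.symm (ve_ne_he _ _)
  | W =>
    rw [rcr_W] at hyc
    have h1 := congrArg Prod.fst (ve_inj hyc)
    simp only at h1
    refine ⟨c, Or.inl rfl, ?_⟩
    simp only [Pool.Agent.Q1.M6b.Strand.pos]
    omega
  | E =>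
    rw [rcr_E] at hyc
    have h1 := congrArg Prod.fst (ve_inj hyc)
    simp only at h1
    refine ⟨c, Or.inr rfl, ?_⟩
    simp only [Pool.Agent.Q1.M6b.Strand.pos]
    omega

/-- **The frozen bound of a row of a window.** -/
theorem fb_win (hAP : AP Pool.Agent.Q1.M6c.PlaneK) (m A f : ℕ) (Cb : ℝ) (hCb : 0 ≤ Cb) :
    ∃ C : ℝ, 0 ≤ C ∧ ∀ (R : ℝ) (D : Win) (j r : ℤ) (N : ℕ) (X : Env) (W B t : Finset (ℤ × ℤ))
      (F : Finset ℤ) (k : ℕ), WEnv D j X W → 0 < j → j < D.h → (N : ℤ) = D.M (j - 1) - D.m (j - 1) →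
      Few D F → F.card ≤ f → Flat D j r → SepW D j r N B → 1 ≤ k → k + 1 ≤ N → 1 ≤ R → (N : ℝ) + 1 ≤ A * R →
      (r : ℝ) ≤ A * R → (N : ℤ) ≤ A * r →
      Ex (cp (1 / 2)) (gE (BLw D j B) (BUw D j B) (1, -1)) (fun ω => (4 : ℝ) ^
        (Lp (ω ∪ WGw D j (WFw X W D j N B t) B)
          (vx (sm true (j - 1) (D.m (j - 1) - (j - 1) + 1 + (k : ℕ))))).ncard) ≤
        Cb * R ^ (25 / 32 : ℝ) →
      ∀ y : Fin N × Dir, Pool.Agent.H81.G1.inc (rp (D.m (j - 1)) (j - 1)) y = true →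
      rcr (D.m (j - 1)) (j - 1) y = ve (D.m (j - 1) + (k : ℤ), j - 1) →
      ‖∑ s ∈ powersetCard m (Finset.Ico (-(k : ℤ)) ((N : ℤ) - k)),
        Ec (fun _ => (1 / 2 : ℂ)) (gE (BLw D j B) (BUw D j B) (1, -1))
          (Amp (XFw X D j N B t) (D.m (j - 1)) (j - 1) y (zt ^ (4 : ℤ)) (zt ^ (-4 : ℤ))
            (BLw D j B) (BUw D j B) k s)‖ ≤ C * R ^ ((2 / 3 : ℝ) * m + 2 / 5) := by
  obtain ⟨C, hC, H⟩ := row_sum hAP m (16 * f + 36) 9 A ((A : ℤ) + 6) Cb (by omega) hCb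
  refine ⟨C, hC, ?_⟩
  intro R D j r N X W B t F k hX h0 h1 hN hF hFc hr hB hk1 hkN hR hNA hrA hNr hE y hy hyc
  have r2 := hr.r2
  obtain ⟨R0, rfl⟩ : ∃ R0 : ℕ, (R0 : ℤ) = r := ⟨r.toNat, Int.toNat_of_nonneg (by omega)⟩
  have hW := hX.wrow h0 h1 hN (B := B) (t := t)
  have hI := rowI_winB hW hF hr hB hk1 hkN (K0 := (A : ℤ) + 6) (by omega) (by nlinarith)
    (R0 := R0) le_rfl (g := 16 * f + 36) (by omega)
  obtain ⟨k0, hyk, hpos⟩ := mark_row hyc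
  exact H (XFw X D j N B t) N (D.m (j - 1)) (j - 1) k (BLw D j B) (BUw D j B)
    (WGw D j (WFw X W D j N B t) B) R0 (Swx N (D.m (j - 1)) (j - 1)) R hI
    (fun e he => gE_odd' hW.lay he) (by omega) hR (by push_cast; exact hNA) (by omega)
    (by exact_mod_cast hrA) (by exact_mod_cast hNr) hE y k0 hy hyk hpos

/-- **The frozen bound of a row of a window with ties.** -/
theorem fb_ties (hAP : AP Pool.Agent.Q1.M6c.PlaneK) (m l A f : ℕ) :
    ∃ (Λ : ℤ) (C : ℝ), 1 ≤ Λ ∧ 0 ≤ C ∧ ∀ (K : ℤ), 200 * (Λ + 1) ≤ K →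
      ∀ {κ : Type} [Fintype κ] [DecidableEq κ] [Nonempty κ] (S : TSys κ) (up : κ → Bool) (R : ℕ)
      (D : Win) (j r r' L : ℤ) (N : ℕ) (X : Env) (W t Bp E0 W0 v : Finset (ℤ × ℤ)) (F : Finset ℤ)
      (k : ℕ), WEnv D j X W → 0 < j → j < D.h → (N : ℤ) = D.M (j - 1) - D.m (j - 1) →
      Few D F → F.card ≤ f → Flat D j r → 2 ≤ r' → r' + L + 1 ≤ r → 1 ≤ R → (R : ℤ) ≤ A * r' →
      D.h ≤ A * R → D.b D.yQ - D.a (D.yP - 1) ≤ A * R →
      S.Ok E0 W0 L → GOk D j S L up → (∀ a, 40 * (Λ + 1) * S.N a ≤ K * L) →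
      (∀ a, (S.N a : ℤ) < K * L) → v ⊆ S.Ti → v.card ≤ l →
      Base D j (WFw X W D j N (v.biUnion (S.Bt K v)) t) Bp → Bp.card ≤ f →
      FOk S L (WFw X W D j N (v.biUnion (S.Bt K v)) t) v → 1 ≤ k → k + 1 ≤ N →
      ∀ y : Fin N × Dir, Pool.Agent.H81.G1.inc (rp (D.m (j - 1)) (j - 1)) y = true →
      rcr (D.m (j - 1)) (j - 1) y = ve (D.m (j - 1) + (k : ℤ), j - 1) →
      ‖∑ s ∈ powersetCard m (Finset.Ico (-(k : ℤ)) ((N : ℤ) - k)),
        Ec (fun _ => (1 / 2 : ℂ))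
          (gE (BLw D j (v.biUnion (S.Bt K v))) (BUw D j (v.biUnion (S.Bt K v))) (1, -1))
          (Amp (XFw X D j N (v.biUnion (S.Bt K v)) t) (D.m (j - 1)) (j - 1) y (zt ^ (4 : ℤ))
            (zt ^ (-4 : ℤ)) (BLw D j (v.biUnion (S.Bt K v))) (BUw D j (v.biUnion (S.Bt K v))) k s)‖ ≤
        C * (R : ℝ) ^ ((2 / 3 : ℝ) * m + 2 / 5) := by
  obtain ⟨Λ, Cb, hΛ, hCb, hbh⟩ := bh_win l f A
  obtain ⟨C, hC, H⟩ := fb_win hAP m (A * A + A + 1) f (Cb * 2) (by positivity)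
  refine ⟨Λ, C, hΛ, hC, ?_⟩
  intro K hK κ _ _ _ S up R D j r r' L N X W t Bp E0 W0 v F k hX h0 h1 hN hF hFc hr hr2 hrL hR hRr
    hh hw hO hG hKL hKL' hv hvl Hb hBp hf hk1 hkN y hy hyc
  have hR1 : (1 : ℝ) ≤ R := by exact_mod_cast hR
  have hRp : (0 : ℝ) < R := by linarith
  have hRz : (1 : ℤ) ≤ R := by exact_mod_cast hR
  have hA0 : (0 : ℤ) ≤ A := Nat.cast_nonneg A
  have hL1 : 1 ≤ L := by
    by_contra hcon
    have h3 : K * L ≤ 0 := mul_nonpos_of_nonneg_of_nonpos (by omega) (by omega)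
    have h4 := hKL' (Classical.arbitrary κ)
    omega
  have m1 := Win.m_min (D := D) (y := j - 1) (by omega) (by omega)
  have m2 := Win.M_max (D := D) (y := j - 1) (by omega) (by omega)
  have hNA : (N : ℤ) ≤ A * R := by omega
  have hrh : r' ≤ A * R := by have := hr.lo; omega
  have hsep := sepW_of (N := N) hO hG (by omega) hKL' hv hr hN hrL
  have hfl : Flat D j r' := hr.mono hr2 (by omega)
  have e4 : ((R : ℝ) + 1) ^ (25 / 32 : ℝ) ≤ 2 * (R : ℝ) ^ (25 / 32 : ℝ) := by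
    calc ((R : ℝ) + 1) ^ (25 / 32 : ℝ) ≤ (2 * (R : ℝ)) ^ (25 / 32 : ℝ) :=
          Real.rpow_le_rpow (by positivity) (by linarith) (by norm_num)
      _ = (2 : ℝ) ^ (25 / 32 : ℝ) * (R : ℝ) ^ (25 / 32 : ℝ) := Real.mul_rpow (by norm_num) hRp.le
      _ ≤ (2 : ℝ) ^ (1 : ℝ) * (R : ℝ) ^ (25 / 32 : ℝ) :=
          mul_le_mul_of_nonneg_right (Real.rpow_le_rpow_of_exponent_le (by norm_num) (by norm_num))
            (by positivity)
      _ = _ := by rw [Real.rpow_one]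
  have hNr : (N : ℤ) ≤ ((A * A + A + 1 : ℕ) : ℤ) * r' := by
    push_cast
    have h3 : (A : ℤ) * R ≤ A * (A * r') := mul_le_mul_of_nonneg_left hRr hA0
    nlinarith
  refine H (R : ℝ) D j r' N X W _ t F k hX h0 h1 hN hF hFc hfl hsep hk1 hkN hR1 ?_ ?_ hNr ?_ y hy hyc
  · have h3 : (N : ℤ) + 1 ≤ ((A * A + A + 1 : ℕ) : ℤ) * R := by push_cast; nlinarith
    exact_mod_cast h3
  · have h3 : r' ≤ ((A * A + A + 1 : ℕ) : ℤ) * R := by push_cast; nlinarith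
    exact_mod_cast h3
  · refine (hbh K hK R D j N _ _ Bp F S up E0 W0 L v
      (vx (sm true (j - 1) (D.m (j - 1) - (j - 1) + 1 + (k : ℕ)))) (hX.wrow h0 h1 hN) Hb hF hO hG hf
      hKL hv hvl hBp hFc hh hw (Pool.Agent.H53.Sp.mark_row _)).trans ?_
    calc Cb * ((R : ℝ) + 1) ^ (25 / 32 : ℝ) ≤ Cb * (2 * (R : ℝ) ^ (25 / 32 : ℝ)) :=
          mul_le_mul_of_nonneg_left e4 hCb.le
      _ = _ := by ring

end Pool.Agent.H30.Sp
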