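import Mathlib
import Pool.Agent.H69.Sp.FBw

set_option autoImplicit false
set_option linter.unusedSectionVars false
set_option linter.unusedVariables false
open Finset

/-! # The frozen bound of a row of a window in the form of the expansion over the ties

`fok_frz` : the frozen labels near the runs. `fb_frz` : the hypothesis `FB` of `HT_bound'` (helper76). -/

namespace Pool.Agent.H30.Sp

open Pool.Agent.H75.Perc Pool.Agent.H75.TwoArm Pool.Agent.Q1 Pool.Agent.H81.G1 Pool.Agent.H30.Mid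
open Pool.Agent.H99.NC
open Pool.Agent.H69.M6b (lbt lbt_inj lbt_odd lbt_diff lbt_sub Lay3 RowI zr row_sum)
open Pool.Agent.Q1.M6b.Gl
open Pool.Agent.Q1.M6b.Gd (Iso Nr RowGeo sm)
open Pool.Agent.Q1.M6b.Nest (Lp)
open Pool.Agent.H74.R45 Pool.Agent.H13.R45 Pool.Agent.H33.Q1 Pool.Agent.H34.Q1
open Pool.Agent.H46.Sp (Win Out TSys)
open Pool.Agent.H53.Sp (GOk FOk bh_win)

variable {D : Win} {j x y : ℤ} {N : ℕ} {X : Env} {W B t C0 : Finset (ℤ × ℤ)}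
  {κ : Type*} [Fintype κ] [DecidableEq κ] [Nonempty κ] {S : TSys κ} {L K : ℤ}
  {v T ξ σ : Finset (ℤ × ℤ)}

lemma mem_WFw {e : ℤ × ℤ} : e ∈ WFw X W D j N B t ↔ e ∈ W ∨ (e ∈ t ∧ e ∈ X.E ∧ e ∉ EFw D j N B) := by
  unfold WFw fW
  rw [mem_union, mem_inter, mem_sdiff]

/-- **The frozen labels near the runs.** -/
theorem fok_frz (hd : Disjoint X.E W) (hO : S.Ok X.E W L) (hK : 20 ≤ K)
    (hKL : ∀ a, (S.N a : ℤ) < K * L)
    (hE : X.E \ RS N (D.m (j - 1)) (j - 1) = C0 ∪ (S.Ti ∪ (BLw D j ∅ ∪ BUw D j ∅)))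
    (hC : Disjoint C0 (S.Ti ∪ (BLw D j ∅ ∪ BUw D j ∅))) (hT : Disjoint S.Ti (BLw D j ∅ ∪ BUw D j ∅))
    (w2 : ∀ a t, S.Rg L a (-1) t → lt (S.tl a (-2) t) ∉ X.E ∧
      (lt (S.tl a (-2) t) ∈ W ↔ S.c a = true))
    (hv : v ⊆ S.Ti) (hTv : T ⊆ v) (hξ : ξ ⊆ v.biUnion (S.Bt K v)) (hσ : σ ⊆ C0) :
    FOk S L (WFw X W D j N (v.biUnion (S.Bt K v)) (ξ ∪ S.st T ∪ σ)) v := by
  constructor
  · intro a s hRg he
    rcases hO.first a s hRg with h1 | ⟨h1, h2⟩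
    · have hRg' := hRg
      unfold TSys.Rg at hRg'
      obtain ⟨s', hs', e1⟩ := hO.own (a := a) (t := s) (by omega) h1 (by omega) (by omega)
      have e2 : S.idx (lt (S.tl a (-1) s)) = (a, s') := by
        have h3 := hO.idx_tie hs'
        unfold TSys.tie TSys.til at h3
        simp only at h3
        rw [e1]
        exact h3
      rw [mem_WFw]
      have k1 : lt (S.tl a (-1) s) ∉ W := disjoint_left.1 hd (hO.sub h1)
      have k2 : lt (S.tl a (-1) s) ∉ EFw D j N (v.biUnion (S.Bt K v)) := by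
        intro h3
        unfold EFw at h3
        rw [mem_union, mem_union] at h3
        have hm : lt (S.tl a (-1) s) ∈ X.E \ RS N (D.m (j - 1)) (j - 1) := by
          rw [hE]
          exact mem_union_right _ (mem_union_left _ h1)
        rcases h3 with (h3 | h3) | h3
        · rw [← BLw_sdiff] at h3
          exact disjoint_left.1 hT h1 (mem_union_left _ (mem_sdiff.1 h3).1)
        · rw [← BUw_sdiff] at h3
          exact disjoint_left.1 hT h1 (mem_union_right _ (mem_sdiff.1 h3).1)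
        · exact (mem_sdiff.1 hm).2 h3
      have k3 : lt (S.tl a (-1) s) ∉ ξ := by
        intro h3
        obtain ⟨e', he', h4⟩ := mem_biUnion.1 (hξ h3)
        exact (mem_sdiff.1 (TSys.Bt_sub hO hv hK hKL he' h4)).2 h1
      have k4 : lt (S.tl a (-1) s) ∉ σ := fun h3 =>
        disjoint_left.1 hC (hσ h3) (mem_union_left _ h1)
      have k5 : lt (S.tl a (-1) s) ∉ T := fun h3 => he (hTv h3)
      have k6 : lt (S.tl a (-1) s) ∈ S.st T ↔ S.c a = false := by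
        rw [TSys.mem_st, e2]
        simp only [k5, false_iff, h1, true_and, Bool.not_eq_true]
      rw [← k6, mem_union, mem_union]
      have k7 := hO.sub h1
      exact ⟨fun h => h.elim (fun h => absurd h k1) fun h => h.1.elim (fun h => h.elim (fun h => absurd h k3)
        id) fun h => absurd h k4, fun h => Or.inr ⟨Or.inl (Or.inr h), k7, k2⟩⟩
    · rw [mem_WFw, ← h2]
      clear * - h1
      tauto
  · intro a s hRg
    obtain ⟨h1, h2⟩ := w2 a s hRg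
    rw [mem_WFw, ← h2]
    clear * - h1
    tauto

/-- **The frozen bound in the form of the expansion.** -/
theorem fb_frz (hAP : AP Pool.Agent.Q1.M6c.PlaneK) (m l A f : ℕ) :
    ∃ (Λ : ℤ) (C : ℝ), 1 ≤ Λ ∧ 0 ≤ C ∧ ∀ (K : ℤ), 200 * (Λ + 1) ≤ K →
      ∀ {κ : Type} [Fintype κ] [DecidableEq κ] [Nonempty κ] (S : TSys κ) (up : κ → Bool) (R : ℕ)
      (D : Win) (j r r' L : ℤ) (N : ℕ) (X : Env) (W C0 : Finset (ℤ × ℤ)) (F : Finset ℤ)
      (k : ℕ), WEnv D j X W → 0 < j → j < D.h → (N : ℤ) = D.M (j - 1) - D.m (j - 1) →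
      Few D F → F.card ≤ f → Flat D j r → 2 ≤ r' → r' + L + 1 ≤ r → 1 ≤ R → (R : ℤ) ≤ A * r' →
      D.h ≤ A * R → D.b D.yQ - D.a (D.yP - 1) ≤ A * R →
      S.Ok X.E W L → GOk D j S L up → (∀ a, 40 * (Λ + 1) * S.N a ≤ K * L) →
      (∀ a, (S.N a : ℤ) < K * L) →
      X.E \ RS N (D.m (j - 1)) (j - 1) = C0 ∪ (S.Ti ∪ (BLw D j ∅ ∪ BUw D j ∅)) →
      Disjoint C0 (S.Ti ∪ (BLw D j ∅ ∪ BUw D j ∅)) → Disjoint S.Ti (BLw D j ∅ ∪ BUw D j ∅) →
      (∀ a t, S.Rg L a (-1) t → lt (S.tl a (-2) t) ∉ X.E ∧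
        (lt (S.tl a (-2) t) ∈ W ↔ S.c a = true)) →
      (∀ v, v ⊆ S.Ti → v.card ≤ l → ∀ T, T ⊆ v → ∀ ξ, ξ ⊆ v.biUnion (S.Bt K v) → ∀ σ, σ ⊆ C0 →
        ∃ Bp, Bp.card ≤ f ∧
          Base D j (WFw X W D j N (v.biUnion (S.Bt K v)) (ξ ∪ S.st T ∪ σ)) Bp) →
      1 ≤ k → k + 1 ≤ N →
      ∀ y : Fin N × Dir, Pool.Agent.H81.G1.inc (rp (D.m (j - 1)) (j - 1)) y = true →
      rcr (D.m (j - 1)) (j - 1) y = ve (D.m (j - 1) + (k : ℤ), j - 1) →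
      ∀ σ, σ ⊆ C0 → ∀ v ∈ powersetCard l S.Ti, ∀ T, T ⊆ v → ∀ ξ, ξ ⊆ v.biUnion (S.Bt K v) →
      ‖∑ s ∈ powersetCard m (Finset.Ico (-(k : ℤ)) ((N : ℤ) - k)), Ec (fun _ => (1 / 2 : ℂ))
        (gE (BLw D j ∅ \ v.biUnion (S.Bt K v)) (BUw D j ∅ \ v.biUnion (S.Bt K v)) (1, -1))
        (Amp (X.freeze ((BLw D j ∅ \ v.biUnion (S.Bt K v)) ∪ (BUw D j ∅ \ v.biUnion (S.Bt K v)) ∪
          RS N (D.m (j - 1)) (j - 1)) (ξ ∪ S.st T ∪ σ)) (D.m (j - 1)) (j - 1) y (zt ^ (4 : ℤ))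
          (zt ^ (-4 : ℤ)) (BLw D j ∅ \ v.biUnion (S.Bt K v)) (BUw D j ∅ \ v.biUnion (S.Bt K v))
          k s)‖ ≤ C * (R : ℝ) ^ ((2 / 3 : ℝ) * m + 2 / 5) := by
  obtain ⟨Λ, C, hΛ, hC, H⟩ := fb_ties hAP m l A f
  refine ⟨Λ, C, hΛ, hC, ?_⟩
  intro K hK κ _ _ _ S up R D j r r' L N X W C0 F k hX h0 h1 hN hF hFc hr hr2 hrL hR hRr hh hw hO hG
    hKL hKL' hE hC0 hTB w2 hBase hk1 hkN y hy hyc σ hσ v hv T hT ξ hξ
  obtain ⟨hvT, hvc⟩ := mem_powersetCard.1 hv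
  obtain ⟨Bp, hBp, Hb⟩ := hBase v hvT hvc.le T hT ξ hξ σ hσ
  have hf := fok_frz (K := K) (N := N) (D := D) (j := j) hX.po.disj hO (by omega) hKL' hE hC0 hTB w2
    hvT hT hξ hσ
  have key := H K hK S up R D j r r' L N X W (ξ ∪ S.st T ∪ σ) Bp X.E W v F k hX h0 h1 hN hF hFc hr
    hr2 hrL hR hRr hh hw hO hG hKL hKL' hvT hvc.le Hb hBp hf hk1 hkN y hy hyc
  rw [BLw_sdiff, BUw_sdiff]
  exact key

end Pool.Agent.H30.Sp
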