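import Mathlib
import Pool.Agent.H69.Sp.FBfrz
import Pool.Agent.H30.Sp.BaseC
import Pool.Agent.H46.Sp.WCnt
import Pool.Agent.H46.Sp.WInst
import Pool.Agent.Q1.M6b.WSysX
import Pool.Agent.Q1.M6c.APMain

set_option autoImplicit false
open Finset

/-! # The frozen bound for the rows of the windows -/

namespace Pool.Agent.Q1.M6b.ABW

open Pool.Agent.H75.Perc hiding AR VV
open Pool.Agent.H75.TwoArm hiding EF
open Pool.Agent.H99.NC
open Pool.Agent.Q1 Pool.Agent.H33.Q1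
open Pool.Agent.H81.G1 Pool.Agent.Q1.M6b.Gd
open Pool.Agent.H30.Mid Pool.Agent.H30.Sp
open Pool.Agent.H13.R45 (ev ev_true)
open Pool.Agent.H46.Sp
open Pool.Agent.H46.Sp.Win (GJ NRw til_kt wsys_ok wsys_gok lev_GJ gd_GJ wsys_N rg_bulk left_card
  out2)
open Pool.Agent.H42.Sp (Sd Ix CP kt rt CPs ETp WTp OTp XTp OutT mem_CPs kt_inj)
open Pool.Agent.H74.R45 (ve he)
open Pool.Agent.H76.Sp
open Pool.Agent.H46.G1 (Wp)
open Pool.Agent.Q1.M6b.Gl (gE tr)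

variable {D : Win} {j : ℤ} {N : ℕ}

section base

set_option linter.unusedSectionVars false

variable {G : Finset ℤ} [Nonempty {g : ℤ // g ∈ G}] {P : Finset Ix} {L K : ℤ}

/-- the kept tiles are ties of the runs or in `CS` -/
lemma kt_cs (O : Pool.Agent.H46.Sp.Out D) (h0 : 0 < j) (h1 : j < D.h) (hP : ∀ k ∈ P, CP D j k)
    (hr : ∀ k ∈ P, NRow j k) {k : Ix} (hk : k ∈ P) (hn : lt (kt k) ∉ CS D j N G P)
    (hN : (N : ℤ) = D.M (j - 1) - D.m (j - 1)) : lt (kt k) ∈ (D.wsys j G).Ti := by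
  by_contra h4
  refine hn ?_
  have hE : lt (kt k) ∈ ETp D j P := tA_sub O h0 h1 hP (mem_image_of_mem _ hk)
  have h5 := disjoint_left.1 (disj_A h0 h1 hP hr) (mem_image_of_mem _ hk)
  unfold CS
  rw [mem_sdiff, mem_union, not_or, mem_union, not_or]
  refine ⟨hE, fun h6 => ?_, h4, h5⟩
  obtain ⟨c, hc⟩ := mem_RS.1 h6
  have h7 := cap_reg h0 h1 (hP k hk) (hr k hk) (t := kt k) (Or.inl rfl)
  have h8 := lt_inj (show lt (D.m (j - 1) + (c : ℕ), j - 1) = lt (kt k) from hc)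
  rw [← h8] at h7
  have hc2 := c.2
  exact h7 (Or.inr (Or.inr ⟨rfl, by simp only; omega, by simp only; omega⟩))

/-- the state of a tie which is not cut -/
lemma kt_st (hG : D.Lev j G) (h0 : 0 < j) (h1 : j < D.h) (hP : ∀ k ∈ P, CP D j k)
    (hPr : ∀ k, CP D j k → NRw j k → k ∈ P) {E W : Finset (ℤ × ℤ)} (hO : (D.wsys j G).Ok E W L)
    {k : Ix} (hk : k ∈ P) (hTi : lt (kt k) ∈ (D.wsys j G).Ti) {T : Finset (ℤ × ℤ)}
    (hT : lt (kt k) ∉ T) : lt (kt k) ∈ (D.wsys j G).st T ↔ ev k.2 = true := by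
  obtain ⟨z, hz, hze, k', hk', h2, h3⟩ := ti_cap hG h0 h1 hPr hTi
  have ekk : k' = k := kt_inj h0.le h1.le (hP k' hk') (hP k hk) (lt_inj h2)
  rw [ekk] at h3
  have e4 : (D.wsys j G).idx (lt (kt k)) = z := by rw [← hze]; exact hO.idx_tie hz
  have hev : ev k.2 = true ↔ (D.wsys j G).c z.1 = false := by
    rw [ev_true (x := k.2.1) (y := k.2.2)]
    constructor
    · intro h5
      by_contra h6
      rw [Bool.not_eq_false] at h6
      have := h3.2 h6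
      omega
    · intro h5
      by_contra h6
      have h7 := h3.1 (by omega)
      rw [h5] at h7
      exact absurd h7 (by simp)
  rw [TSys.mem_st, e4, hev]
  simp only [hT, false_iff, hTi, true_and, Bool.not_eq_true]

/-- the base state of the frozen environments in the expansion -/
lemma base_exp (O : Pool.Agent.H46.Sp.Out D) (hG : D.Lev j G) (h0 : 0 < j) (h1 : j < D.h)
    (hP : ∀ k ∈ P, CP D j k) (hr : ∀ k ∈ P, NRow j k) (hPr : ∀ k, CP D j k → NRow j k → k ∈ P)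
    (hN : (N : ℤ) = D.M (j - 1) - D.m (j - 1)) {F : Finset ℤ} (hF : Few D F) (hK : 20 ≤ K)
    (hO : (D.wsys j G).Ok (ETp D j P) (WTp D j P O.Wo) L)
    (hKL : ∀ a, ((D.wsys j G).N a : ℤ) < K * L) {v T ξ σ B : Finset (ℤ × ℤ)}
    (hv : v ⊆ (D.wsys j G).Ti) (hT : T ⊆ v) (hξ : ξ ⊆ v.biUnion ((D.wsys j G).Bt K v))
    (hσ : σ ⊆ CS D j N G P) :
    Base D j (WFw (XTp O j h0.le h1.le P hP) (WTp D j P O.Wo) D j N B
      (ξ ∪ (D.wsys j G).st T ∪ σ)) (LoT D F j ∪ (v ∪ CS D j N G P).image tlf) := by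
  refine base_T h0 h1 hP hPr hN hF fun k hk hn => ?_
  rw [mem_union, not_or] at hn
  have hTi := kt_cs (N := N) (G := G) O h0 h1 hP hr hk hn.2 hN
  have k3 : lt (kt k) ∉ ξ := by
    intro h3
    obtain ⟨e', he', h4⟩ := mem_biUnion.1 (hξ h3)
    exact (mem_sdiff.1 (TSys.Bt_sub hO hv hK hKL he' h4)).2 hTi
  have k4 : lt (kt k) ∉ σ := fun h3 => hn.2 (hσ h3)
  rw [← kt_st hG h0 h1 hP hPr hO hk hTi (fun h3 => hn.1 (hT h3)), mem_union, mem_union]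
  clear * - k3 k4
  tauto

end base

/-- the constants -/
lemma cst_K {A R L L' n Λ : ℤ} (hA : 0 ≤ A) (hL' : 1 ≤ L') (hLL : L ≤ 4 * L')
    (hR : R ≤ A * L) (hn : 2 * n ≤ A * R) (hΛ : 1 ≤ Λ) :
    40 * (Λ + 1) * n ≤ 200 * (Λ + 1) * (A * A + 1) * L' ∧ n < 200 * (Λ + 1) * (A * A + 1) * L' := by
  have h1 : A * R ≤ A * (A * (4 * L')) :=
    mul_le_mul_of_nonneg_left (hR.trans (mul_le_mul_of_nonneg_left hLL hA)) hA
  have hB : 0 ≤ A * A := mul_nonneg hA hA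
  have h2 : n ≤ 2 * (A * A) * L' := by
    have : A * (A * (4 * L')) = 4 * (A * A) * L' := by ring
    linarith
  generalize A * A = B at *
  have h3 : 0 ≤ (Λ + 1) * L' := by positivity
  have h4 : 0 ≤ (Λ + 1) * L' * B := mul_nonneg h3 hB
  have h5 : 0 ≤ L' * B := mul_nonneg (by omega) hB
  constructor
  · have h6 : (Λ + 1) * n ≤ (Λ + 1) * (2 * B * L') := mul_le_mul_of_nonneg_left h2 (by omega)
    nlinarith
  · have h6 : 0 ≤ Λ * (L' * B) := mul_nonneg (by omega) h5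
    have h7 : 0 ≤ Λ * L' := mul_nonneg (by omega) (by omega)
    nlinarith

/-- **The frozen bound**, any set of levels. -/
theorem fbws_G (m l f A : ℕ) : ∃ (K : ℤ) (C : ℝ), 20 ≤ K ∧ 0 ≤ C ∧ ∀ (R : ℕ) (D : Win)
    (O : Pool.Agent.H46.Sp.Out D) (j r L L2 : ℤ) (N k : ℕ) (F G : Finset ℤ)
    [Nonempty {g : ℤ // g ∈ G}] (P : Finset Ix), 1 ≤ R →
    ∀ (h0 : 0 < j) (h1 : j < D.h), (N : ℤ) = D.M (j - 1) - D.m (j - 1) → Few D F → F.card ≤ f →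
    Flat D j r → D.Fat L2 → L ≤ r → 2 * L + 2 ≤ L2 → D.h ≤ A * R →
    D.b D.yQ - D.a (D.yP - 1) ≤ A * R → (R : ℤ) ≤ A * L → 6 ≤ L → 1 ≤ k → k + 1 ≤ N →
    D.Lev j G → G.card ≤ f + 3 → (∀ g ∈ G, g ≠ j → j + r ≤ g ∨ g + r ≤ j) →
    (∀ a, ((D.wsys j G).N a : ℤ) < K * L) ∧
    ∀ (hP : ∀ k ∈ P, CP D j k), (∀ k ∈ P, NRow j k) → (∀ k, CP D j k → NRow j k → k ∈ P) →
      ∀ (y : Fin N × Dir), H81.G1.inc (rp (D.m (j - 1)) (j - 1)) y = true →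
      rcr (D.m (j - 1)) (j - 1) y = ve (D.m (j - 1) + (k : ℤ), j - 1) →
      ∀ σ, σ ⊆ CS D j N G P → ∀ v ∈ powersetCard l (D.wsys j G).Ti,
      ∀ T, T ⊆ v → ∀ ξ, ξ ⊆ v.biUnion ((D.wsys j G).Bt K v) →
      ‖∑ s ∈ powersetCard m (Finset.Ico (-(k : ℤ)) ((N : ℤ) - k)), Ec (fun _ => (1 / 2 : ℂ))
        (gE (BLw D j ∅ \ v.biUnion ((D.wsys j G).Bt K v))
          (BUw D j ∅ \ v.biUnion ((D.wsys j G).Bt K v)) (1, -1))
        (Amp ((XTp O j h0.le h1.le P hP).freeze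
          ((BLw D j ∅ \ v.biUnion ((D.wsys j G).Bt K v)) ∪
            (BUw D j ∅ \ v.biUnion ((D.wsys j G).Bt K v)) ∪
            RS N (D.m (j - 1)) (j - 1)) (ξ ∪ (D.wsys j G).st T ∪ σ))
          (D.m (j - 1)) (j - 1) y (zt ^ (4 : ℤ)) (zt ^ (-4 : ℤ))
          (BLw D j ∅ \ v.biUnion ((D.wsys j G).Bt K v))
          (BUw D j ∅ \ v.biUnion ((D.wsys j G).Bt K v)) k s)‖ ≤
        C * (R : ℝ) ^ ((2 / 3 : ℝ) * m + 2 / 5) := by
  obtain ⟨Λ, C, hΛ, hC, H⟩ := fb_frz Pool.Agent.Q1.M6c.ap_planeK m l (4 * A)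
    (f + (8 * (6 * f + 30) + (l + 3844 * (f + 3))))
  have hA0 : (0 : ℤ) ≤ A := Nat.cast_nonneg A
  have hAA : (0 : ℤ) ≤ (A : ℤ) * A := mul_nonneg hA0 hA0
  have hK200 : 200 * (Λ + 1) ≤ 200 * (Λ + 1) * ((A : ℤ) * A + 1) := by nlinarith
  refine ⟨200 * (Λ + 1) * ((A : ℤ) * A + 1), C, by omega, hC, ?_⟩
  generalize hKdef : 200 * (Λ + 1) * ((A : ℤ) * A + 1) = K at *
  intro R D O j r L L2 N k F G _ P hR h0 h1 hN hF hFc hr hFat hLr hL2 hh hw hRL hL6 hk1 hkN hG hGc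
    hgd
  obtain ⟨L', hL'⟩ : ∃ L' : ℤ, L' = (L - 1) / 2 := ⟨_, rfl⟩
  have hL2' : 2 ≤ L' := by omega
  have hLL : L ≤ 4 * L' := by omega
  have hN1 : ∀ a, 40 * (Λ + 1) * ((D.wsys j G).N a : ℤ) ≤ K * L' ∧
      ((D.wsys j G).N a : ℤ) < K * L' := fun a => by
    rw [← hKdef]
    exact cst_K hA0 (by omega) hLL hRL (wsys_N hG h0 h1 hh hw a) hΛ
  refine ⟨fun a => ((hN1 a).2).trans_le (mul_le_mul_of_nonneg_left (by omega) (by omega)), ?_⟩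
  intro hP hrw hPr y hy hyc σ hσ v hv T hT ξ hξ
  have hX := wenv_XTp O h0 h1 hP hrw
  have hO := wsys_ok O hG hFat (L := L') (by omega) h0 h1 hP hPr
  have hgd' : ∀ g ∈ G, g ≠ j → j + L' ≤ g ∨ g + L' ≤ j := fun g g1 g2 => by
    rcases hgd g g1 g2 with h | h
    · exact Or.inl (by omega)
    · exact Or.inr (by omega)
  have hGO := wsys_gok hG hFat (L := L') (by omega) h0 h1 hgd'
  have hcard : (CS D j N G P).card ≤ 3844 * (f + 3) :=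
    (left_card hG h0 h1 hO (by omega) hN).trans (Nat.mul_le_mul_left _ hGc)
  refine H K hK200 (D.wsys j G) (Win.rup j) R D j r L' L' N (XTp O j h0.le h1.le P hP)
    (WTp D j P O.Wo) (CS D j N G P) F k hX h0 h1 hN hF (hFc.trans (Nat.le_add_right _ _)) hr hL2'
    (by omega) hR ?_ ?_ ?_ hO hGO (fun a => (hN1 a).1) (fun a => (hN1 a).2)
    (E_sys hG h0 h1 hP hrw hPr hN O) cs_disj (ti_disj hG h0 h1 hP hrw hPr) ?_ ?_ hk1 hkN y hy hyc σ hσ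
    v hv T hT ξ hξ
  · push_cast
    have h3 : (A : ℤ) * L ≤ A * (4 * L') := mul_le_mul_of_nonneg_left hLL hA0
    linarith
  · push_cast
    have h3 : (0 : ℤ) ≤ (A : ℤ) * R := by positivity
    linarith
  · push_cast
    have h3 : (0 : ℤ) ≤ (A : ℤ) * R := by positivity
    linarith
  · intro a t hRg
    have h2 := out2 hG h0 h1 hRg
    have h4 := h2.not_mem
    have h5 : lt ((D.wsys j G).tl a (-2) t) ∉ OTp P := fun h => h4
      (Pool.Agent.H42.Sp.OTp_sub O h0.le h1.le hP h)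
    refine ⟨fun h => h4 (Pool.Agent.H42.Sp.ETp_sub h), ?_⟩
    have h3 := h2.mem O
    change lt ((D.wsys j G).tl a (-2) t) ∈ _ ↔ _ at h3
    unfold WTp
    rw [mem_union, ← h3]
    clear * - h5
    tauto
  · intro v' hv' hvl' T' hT' ξ' hξ' σ' hσ'
    refine ⟨_, ?_, base_exp O hG h0 h1 hP hrw hPr hN hF (by omega) hO (fun a => (hN1 a).2) hv' hT'
      hξ' hσ'⟩
    refine (card_base F).trans ?_
    have h6 := card_union_le v' (CS D j N G P)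
    omega

/-- **The frozen bound for the rows of the windows.** -/
theorem fbws_of (m l f A : ℕ) : ∃ (K : ℤ) (C : ℝ), 20 ≤ K ∧ 0 ≤ C ∧ ∀ (R : ℕ) (D : Win)
    (O : Pool.Agent.H46.Sp.Out D) (j r L L2 : ℤ) (N k : ℕ) (F : Finset ℤ), 1 ≤ R →
    ∀ (h0 : 0 < j) (h1 : j < D.h), (N : ℤ) = D.M (j - 1) - D.m (j - 1) → Few D F → F.card ≤ f →
    Flat D j r → D.Fat L2 → L ≤ r → 2 * L + 2 ≤ L2 → D.h ≤ A * R →
    D.b D.yQ - D.a (D.yP - 1) ≤ A * R → (R : ℤ) ≤ A * L → 6 ≤ L → 1 ≤ k → k + 1 ≤ N →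
    (∀ a, ((D.wsys j (D.GJ j)).N a : ℤ) < K * L) ∧
    ∀ (hP : ∀ k ∈ PR D j, CP D j k) (y : Fin N × Dir),
      H81.G1.inc (rp (D.m (j - 1)) (j - 1)) y = true →
      rcr (D.m (j - 1)) (j - 1) y = ve (D.m (j - 1) + (k : ℤ), j - 1) →
      ∀ σ, σ ⊆ CS D j N (D.GJ j) (PR D j) → ∀ v ∈ powersetCard l (D.wsys j (D.GJ j)).Ti,
      ∀ T, T ⊆ v → ∀ ξ, ξ ⊆ v.biUnion ((D.wsys j (D.GJ j)).Bt K v) →
      ‖∑ s ∈ powersetCard m (Finset.Ico (-(k : ℤ)) ((N : ℤ) - k)), Ec (fun _ => (1 / 2 : ℂ))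
        (gE (BLw D j ∅ \ v.biUnion ((D.wsys j (D.GJ j)).Bt K v))
          (BUw D j ∅ \ v.biUnion ((D.wsys j (D.GJ j)).Bt K v)) (1, -1))
        (Amp ((XTp O j h0.le h1.le (PR D j) hP).freeze
          ((BLw D j ∅ \ v.biUnion ((D.wsys j (D.GJ j)).Bt K v)) ∪
            (BUw D j ∅ \ v.biUnion ((D.wsys j (D.GJ j)).Bt K v)) ∪
            RS N (D.m (j - 1)) (j - 1)) (ξ ∪ (D.wsys j (D.GJ j)).st T ∪ σ))
          (D.m (j - 1)) (j - 1) y (zt ^ (4 : ℤ)) (zt ^ (-4 : ℤ))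
          (BLw D j ∅ \ v.biUnion ((D.wsys j (D.GJ j)).Bt K v))
          (BUw D j ∅ \ v.biUnion ((D.wsys j (D.GJ j)).Bt K v)) k s)‖ ≤
        C * (R : ℝ) ^ ((2 / 3 : ℝ) * m + 2 / 5) := by
  obtain ⟨K, C, hK, hC, H⟩ := fbws_G m l f A
  refine ⟨K, C, hK, hC, ?_⟩
  intro R D O j r L L2 N k F hR h0 h1 hN hF hFc hr hFat hLr hL2 hh hw hRL hL6 hk1 hkN
  have h3 := H R D O j r L L2 N k F (D.GJ j) (PR D j) hR h0 h1 hN hF hFc hr hFat hLr hL2 hh hw hRL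
    hL6 hk1 hkN (lev_GJ h0.le h1.le) ((Win.GJ_card hF).trans (by omega)) (gd_GJ hr)
  refine ⟨h3.1, fun hP => ?_⟩
  exact h3.2 hP (fun k hk => ((mem_PR h0.le h1.le).1 hk).2)
    (fun k h4 h5 => (mem_PR h0.le h1.le).2 ⟨h4, h5⟩)

end Pool.Agent.Q1.M6b.ABW
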